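import Mathlib

open Cardinal

universe u

namespace Pool.Agent.W_MP_c086f7_lc

/-- The pair `p` of pieces splits `X`: the two pieces are disjoint and their union is `X`. -/
def IsSplit {E : Type u} (X : Set E) (p : Set E × Set E) : Prop :=
  p.1 ∪ p.2 = X ∧ Disjoint p.1 p.2

/-- A play of `G(E)` is recorded as the sequence `m 0, m 1, ...` of the pairs of pieces made at
moves `0, 1, ...`.  Move `0` must split the whole set `E`; move `n + 1` must split one of the two
pieces made at move `n` (the picked piece `X_{n+1}`). -/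
def LegalAt {E : Type u} (m : ℕ → Set E × Set E) : ℕ → Prop
  | 0 => IsSplit Set.univ (m 0)
  | n + 1 => IsSplit (m n).1 (m (n + 1)) ∨ IsSplit (m n).2 (m (n + 1))

/-- The set `X_n`: the union of the two pieces made at move `n`. -/
def chosen {E : Type u} (m : ℕ → Set E × Set E) (n : ℕ) : Set E := (m n).1 ∪ (m n).2

/-- The finite history of the play before move `n`. -/
def hist {E : Type u} (m : ℕ → Set E × Set E) (n : ℕ) : List (Set E × Set E) :=
  (List.range n).map m

/-- `s` is a strategy for the player who makes the moves `n` with `turn n`: it assigns a legal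
move to every legal finite history ending at one of that player's turns. -/
def IsStrategy {E : Type u} (turn : ℕ → Prop)
    (s : List (Set E × Set E) → Set E × Set E) : Prop :=
  ∀ (m : ℕ → Set E × Set E) (n : ℕ), turn n → (∀ i < n, LegalAt m i) →
    m n = s (hist m n) → LegalAt m n

/-- In the play `m` all moves `n` with `turn n` are made according to `s`. -/
def Follows {E : Type u} (turn : ℕ → Prop)
    (s : List (Set E × Set E) → Set E × Set E) (m : ℕ → Set E × Set E) : Prop :=
  ∀ n, turn n → m n = s (hist m n)

/-- Player A (who makes the moves `0, 2, 4, ...`) has a winning strategy in `G(E)`: every play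
consistent with it has empty intersection `X_1 ∩ X_2 ∩ ...`. -/
def AWins (E : Type u) : Prop :=
  ∃ s : List (Set E × Set E) → Set E × Set E, IsStrategy Even s ∧
    ∀ m : ℕ → Set E × Set E, (∀ n, LegalAt m n) → Follows Even s m →
      {x | ∀ n, 1 ≤ n → x ∈ chosen m n} = ∅

/-- Player B (who makes the moves `1, 3, 5, ...`) has a winning strategy in `G(E)`: every play
consistent with it has nonempty intersection `X_1 ∩ X_2 ∩ ...`. -/
def BWins (E : Type u) : Prop :=
  ∃ s : List (Set E × Set E) → Set E × Set E, IsStrategy Odd s ∧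
    ∀ m : ℕ → Set E × Set E, (∀ n, LegalAt m n) → Follows Odd s m →
      {x | ∀ n, 1 ≤ n → x ∈ chosen m n} ≠ ∅

/-- `E` carries a closed splitting system: a nonempty preorder `P` and sets `X p ⊆ E` (`p ∈ P`)
that get smaller when `p` gets smaller, such that
* below every `p` and for every `Z ⊆ E` some `q` has `X q` inside `Z` or inside its complement,
* below every `p` there are `q`, `r` with `X q` and `X r` disjoint,
* along every descending sequence in `P` the sets `X p` have a common point. -/
def HasSystem (E : Type u) : Prop :=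
  ∃ (P : Type u) (_ : Preorder P) (_ : Nonempty P) (X : P → Set E), Monotone X ∧
    (∀ (p : P) (Z : Set E), ∃ q ≤ p, X q ⊆ Z ∨ X q ⊆ Zᶜ) ∧
    (∀ p : P, ∃ q ≤ p, ∃ r ≤ p, Disjoint (X q) (X r)) ∧
    (∀ s : ℕ → P, Antitone s → (⋂ n, X (s n)).Nonempty)

/-- `b` is a limit point of the set of ordinals `C`: it is not `0` and `C` is unbounded in `b`. -/
def IsLimPt (C : Set Ordinal.{u}) (b : Ordinal.{u}) : Prop :=
  b ≠ 0 ∧ ∀ a < b, ∃ c ∈ C, a < c ∧ c < b

/-- `C` is a closed unbounded subset of the ordinal `k`. -/
def IsClubIn (C : Set Ordinal.{u}) (k : Ordinal.{u}) : Prop :=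
  (∀ c ∈ C, c < k) ∧ IsLimPt C k ∧ ∀ b < k, IsLimPt C b → b ∈ C

/-- Todorcevic's square principle for the cardinal `κ` fails: every coherent sequence of closed
unbounded sets `C a ⊆ a` (`a < κ` a limit of ordinals) is threaded by a closed unbounded subset
of `κ`. -/
def SquareFails (κ : Cardinal.{u}) : Prop :=
  ∀ C : Ordinal.{u} → Set Ordinal.{u},
    (∀ a < κ.ord, IsLimPt Set.univ a → IsClubIn (C a) a) →
    (∀ a < κ.ord, IsLimPt Set.univ a → ∀ b < a, IsLimPt (C a) b → C b = C a ∩ Set.Iio b) →
    ∃ t : Set Ordinal.{u}, IsClubIn t κ.ord ∧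
      ∀ b < κ.ord, IsLimPt t b → C b = t ∩ Set.Iio b

end Pool.Agent.W_MP_c086f7_lc
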