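import Mathlib
import Pool.Agent.W_MP_c086f7_lc.Defs

open Cardinal

universe u

namespace Pool.Agent.W_MP_c086f7_lc

variable {E : Type u}

/-- The list of the first `n` moves when every move is made by `step`. -/
def playList (step : List (Set E × Set E) → Set E × Set E) : ℕ → List (Set E × Set E)
  | 0 => []
  | n + 1 => playList step n ++ [step (playList step n)]

/-- The play in which every move is made by `step`. -/
def play (step : List (Set E × Set E) → Set E × Set E) (n : ℕ) : Set E × Set E :=
  step (playList step n)

lemma hist_play (step : List (Set E × Set E) → Set E × Set E) (n : ℕ) :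
    hist (play step) n = playList step n := by
  induction n with
  | zero => rfl
  | succ n ih =>
    unfold hist at ih ⊢
    rw [List.range_succ, List.map_append, ih]
    rfl

lemma play_eq (step : List (Set E × Set E) → Set E × Set E) (n : ℕ) :
    play step n = step (hist (play step) n) := by
  rw [hist_play]; rfl

@[simp] lemma length_hist (m : ℕ → Set E × Set E) (n : ℕ) : (hist m n).length = n := by
  simp [hist]

@[simp] lemma length_playList (step : List (Set E × Set E) → Set E × Set E) (n : ℕ) :
    (playList step n).length = n := by
  rw [← hist_play, length_hist]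

lemma hist_succ (m : ℕ → Set E × Set E) (n : ℕ) : hist m (n + 1) = hist m n ++ [m n] := by
  simp [hist, List.range_succ]

lemma hist_congr {m m' : ℕ → Set E × Set E} {n : ℕ} (h : ∀ i < n, m i = m' i) :
    hist m n = hist m' n := by
  unfold hist
  apply List.map_congr_left
  intro i hi
  exact h i (List.mem_range.1 hi)

lemma getD_hist (m : ℕ → Set E × Set E) (n i : ℕ) (d : Set E × Set E) (hi : i < n) :
    (hist m n).getD i d = m i := by
  unfold hist
  rw [List.getD_eq_getElem _ _ (by simpa using hi)]
  simp

lemma play_congr {step step' : List (Set E × Set E) → Set E × Set E} {N : ℕ}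
    (h : ∀ l : List (Set E × Set E), l.length < N → step l = step' l) :
    ∀ n < N, play step n = play step' n := by
  intro n
  induction n using Nat.strong_induction_on with
  | _ n ih =>
    intro hn
    rw [play_eq, play_eq, hist_congr (fun i hi => ih i hi (hi.trans hn))]
    exact h _ (by simpa using hn)

/-- The splitting of `X` into `X ∩ S` and `X \ S`. -/
def cut (X S : Set E) : Set E × Set E := (X ∩ S, X \ S)

lemma isSplit_cut (X S : Set E) : IsSplit X (cut X S) :=
  ⟨Set.inter_union_sdiff X S, Set.disjoint_sdiff_inter.symm⟩

lemma IsSplit.chosen {m : ℕ → Set E × Set E} {n : ℕ} {X : Set E} (h : IsSplit X (m n)) :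
    chosen m n = X := h.1

lemma LegalAt.disjoint {m : ℕ → Set E × Set E} {n : ℕ} (h : LegalAt m n) :
    Disjoint (m n).1 (m n).2 := by
  cases n with
  | zero => exact h.2
  | succ n => rcases h with h | h <;> exact h.2

lemma LegalAt.chosen_succ {m : ℕ → Set E × Set E} {n : ℕ} (h : LegalAt m (n + 1)) :
    chosen m (n + 1) = (m n).1 ∨ chosen m (n + 1) = (m n).2 := by
  rcases h with h | h
  · exact Or.inl h.1
  · exact Or.inr h.1

lemma chosen_succ_subset {m : ℕ → Set E × Set E} {n : ℕ} (h : LegalAt m (n + 1)) :
    chosen m (n + 1) ⊆ chosen m n := by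
  rcases h.chosen_succ with h | h
  · rw [h]; exact Set.subset_union_left
  · rw [h]; exact Set.subset_union_right

lemma chosen_antitone {m : ℕ → Set E × Set E} (h : ∀ n, LegalAt m n) :
    Antitone (chosen m) :=
  antitone_nat_of_succ_le fun n => chosen_succ_subset (h (n + 1))

/-- A strategy for A together with rules for the moves of B produce a play. -/
lemma legal_of_strategy {m : ℕ → Set E × Set E}
    {turn : ℕ → Prop} {s : List (Set E × Set E) → Set E × Set E}
    (hs : IsStrategy turn s) (hf : Follows turn s m) (ho : ∀ n, ¬ turn n → LegalAt m n) :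
    ∀ n, LegalAt m n := by
  intro n
  induction n using Nat.strong_induction_on with
  | _ n ih =>
    by_cases h : turn n
    · exact hs m n h ih (hf n h)
    · exact ho n h

end Pool.Agent.W_MP_c086f7_lc
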