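import Mathlib
import Pool.Agent.W_MP_c086f7_lc.Plays

open Cardinal

universe u

namespace Pool.Agent.W_MP_c086f7_lc

variable {E : Type u}

/-- A's strategy on a countable set: at its `k`-th pick it avoids the point `e k`. -/
noncomputable def avoid (e : ℕ → E) (l : List (Set E × Set E)) : Set E × Set E :=
  open Classical in
  if l.length = 0 then (Set.univ, ∅)
  else if e (l.length / 2 - 1) ∈ (l.getD (l.length - 1) (∅, ∅)).1
    then ((l.getD (l.length - 1) (∅, ∅)).2, ∅)
    else ((l.getD (l.length - 1) (∅, ∅)).1, ∅)

lemma isSplit_trivial (X : Set E) : IsSplit X (X, ∅) :=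
  ⟨Set.union_empty X, by simp⟩

lemma avoid_isStrategy (e : ℕ → E) : IsStrategy Even (avoid e) := by
  intro m n _ _ hmn
  cases n with
  | zero =>
    have : m 0 = (Set.univ, ∅) := by rw [hmn]; simp [avoid]
    show IsSplit Set.univ (m 0)
    rw [this]; exact isSplit_trivial _
  | succ n =>
    unfold avoid at hmn
    simp only [length_hist, Nat.add_sub_cancel] at hmn
    rw [if_neg (by omega), getD_hist _ _ _ _ (Nat.lt_succ_self n)] at hmn
    split_ifs at hmn
    · exact Or.inr (by rw [hmn]; exact isSplit_trivial _)
    · exact Or.inl (by rw [hmn]; exact isSplit_trivial _)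

theorem AWins_of_countable (E : Type u) (hE : Countable E) : AWins E := by
  classical
  rcases isEmpty_or_nonempty E with hemp | hne
  · refine ⟨fun l => (∅, ∅), ?_, ?_⟩
    · intro m n _ _ hmn
      cases n with
      | zero =>
        show IsSplit Set.univ (m 0)
        rw [hmn]
        exact ⟨by ext x; exact hemp.elim x, by simp⟩
      | succ n =>
        refine Or.inl ?_
        rw [hmn]
        exact ⟨by ext x; exact hemp.elim x, by simp⟩
    · intro m _ _
      ext x
      exact hemp.elim x
  · obtain ⟨e, he⟩ := exists_surjective_nat E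
    refine ⟨avoid e, avoid_isStrategy e, ?_⟩
    intro m hm hf
    ext x
    simp only [Set.mem_empty_iff_false, iff_false]
    intro hx
    have hx' : ∀ n, 1 ≤ n → x ∈ chosen m n := hx
    obtain ⟨k, rfl⟩ := he x
    have hn := hf (2 * (k + 1)) (by simp)
    have hlen : 2 * (k + 1) = 2 * k + 1 + 1 := by ring
    unfold avoid at hn
    simp only [length_hist] at hn
    rw [if_neg (by omega), getD_hist _ _ _ _ (by omega)] at hn
    have e1 : 2 * (k + 1) / 2 - 1 = k := by omega
    have e2 : 2 * (k + 1) - 1 = 2 * k + 1 := by omega
    rw [e1, e2] at hn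
    have hmem := hx' (2 * (k + 1)) (by omega)
    unfold chosen at hmem
    have hdis := (hm (2 * k + 1)).disjoint
    split_ifs at hn with hc
    · rw [hn] at hmem
      simp only [Set.union_empty] at hmem
      exact Set.disjoint_left.1 hdis hc hmem
    · rw [hn] at hmem
      simp only [Set.union_empty] at hmem
      exact hc hmem

end Pool.Agent.W_MP_c086f7_lc
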