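import Mathlib
import Pool.Agent.W_MP_c086f7_lc.Plays

open Cardinal

universe u

namespace Pool.Agent.W_MP_c086f7_lc

variable {E : Type u}

/-- The piece with label `b` of a pair. -/
def side (b : Bool) (p : Set E × Set E) : Set E := if b then p.1 else p.2

lemma legal_cut_side {m : ℕ → Set E × Set E} {n : ℕ} {b : Bool} {S : Set E}
    (h : m (n + 1) = cut (side b (m n)) S) : LegalAt m (n + 1) := by
  cases b with
  | true => exact Or.inl (by rw [h]; exact isSplit_cut _ _)
  | false => exact Or.inr (by rw [h]; exact isSplit_cut _ _)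

/-- B answers with the cuts `S n`, following the options `o`. -/
noncomputable def stepA (s : List (Set E × Set E) → Set E × Set E) (S : ℕ → Set E)
    (o : ℕ → Bool × ℕ) (l : List (Set E × Set E)) : Set E × Set E :=
  open Classical in
  if Even l.length then s l
  else cut (side (o (l.length / 2)).1 (l.getD (l.length - 1) (∅, ∅))) (S (o (l.length / 2)).2)

lemma playA_follows (s : List (Set E × Set E) → Set E × Set E) (S : ℕ → Set E)
    (o : ℕ → Bool × ℕ) : Follows Even s (play (stepA s S o)) := by
  intro n hn
  rw [play_eq]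
  simp only [stepA, length_hist, if_pos hn]

lemma playA_odd (s : List (Set E × Set E) → Set E × Set E) (S : ℕ → Set E)
    (o : ℕ → Bool × ℕ) (k : ℕ) :
    play (stepA s S o) (2 * k + 1) = cut (side (o k).1 (play (stepA s S o) (2 * k))) (S (o k).2) := by
  rw [play_eq]
  have h1 : ¬ Even (2 * k + 1) := by simp
  have h2 : (2 * k + 1) / 2 = k := by omega
  simp only [stepA, length_hist, if_neg h1, h2, Nat.add_sub_cancel]
  rw [getD_hist _ _ _ _ (by omega)]

lemma playA_legal {s : List (Set E × Set E) → Set E × Set E} (hs : IsStrategy Even s)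
    (S : ℕ → Set E) (o : ℕ → Bool × ℕ) : ∀ n, LegalAt (play (stepA s S o)) n := by
  apply legal_of_strategy hs (playA_follows s S o)
  intro n hn
  obtain ⟨k, rfl⟩ : Odd n := Nat.not_even_iff_odd.1 hn
  exact legal_cut_side (playA_odd s S o k)

lemma playA_congr (s : List (Set E × Set E) → Set E × Set E) (S : ℕ → Set E)
    {o o' : ℕ → Bool × ℕ} {k : ℕ} (h : ∀ j < k, o j = o' j) :
    ∀ n < 2 * k + 1, play (stepA s S o) n = play (stepA s S o') n := by
  apply play_congr
  intro l hl
  unfold stepA
  by_cases he : Even l.length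
  · simp only [if_pos he]
  · have : l.length / 2 < k := by
      obtain ⟨j, hj⟩ := Nat.not_even_iff_odd.1 he
      omega
    simp only [if_neg he, h _ this]

theorem not_AWins_of_separating {s : List (Set E × Set E) → Set E × Set E}
    (hs : IsStrategy Even s)
    (hwin : ∀ m : ℕ → Set E × Set E, (∀ n, LegalAt m n) → Follows Even s m →
      {x | ∀ n, 1 ≤ n → x ∈ chosen m n} = ∅)
    (d : E → ℕ → Bool) (T : Set E) (hd : Set.InjOn d T) : T.Countable := by
  classical
  set S : ℕ → Set E := fun n => {e | d e n = true} with hS
  set P : (ℕ → Bool × ℕ) → ℕ → Set E × Set E := fun o => play (stepA s S o) with hP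
  have hlegal : ∀ o n, LegalAt (P o) n := fun o => playA_legal hs S o
  have hfol : ∀ o, Follows Even s (P o) := fun o => playA_follows s S o
  have hodd : ∀ o k, P o (2 * k + 1) = cut (side (o k).1 (P o (2 * k))) (S (o k).2) :=
    fun o k => playA_odd s S o k
  have hcongr : ∀ {o o' : ℕ → Bool × ℕ} {k : ℕ}, (∀ j < k, o j = o' j) →
      ∀ n < 2 * k + 1, P o n = P o' n := fun h => playA_congr s S h
  -- every point is killed at some position
  have hkill : ∀ x : E, ∃ (k : ℕ) (o : ℕ → Bool × ℕ), x ∈ chosen (P o) (2 * k) ∧
      ∀ o' : ℕ → Bool × ℕ, (∀ j < k, o' j = o j) → x ∉ chosen (P o') (2 * k + 2) := by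
    intro x
    by_contra hcon
    push Not at hcon
    -- build better and better option sequences
    have hstep : ∀ (k : ℕ) (o : ℕ → Bool × ℕ), x ∈ chosen (P o) (2 * k) →
        ∃ o' : ℕ → Bool × ℕ, (∀ j < k, o' j = o j) ∧ x ∈ chosen (P o') (2 * (k + 1)) := by
      intro k o h
      obtain ⟨o', h1, h2⟩ := hcon k o h
      exact ⟨o', h1, h2⟩
    choose! g hg1 hg2 using hstep
    let O : ℕ → (ℕ → Bool × ℕ) := fun k => Nat.rec (fun _ => (true, 0)) (fun k o => g k o) k
    have hO0 : x ∈ chosen (P (O 0)) (2 * 0) := by
      have : LegalAt (P (O 0)) 0 := hlegal _ 0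
      have h1 : IsSplit Set.univ (P (O 0) 0) := this
      rw [Nat.mul_zero, h1.chosen]; exact Set.mem_univ x
    have hOmem : ∀ k, x ∈ chosen (P (O k)) (2 * k) := by
      intro k
      induction k with
      | zero => exact hO0
      | succ k ih => exact hg2 k (O k) ih
    have hOagree : ∀ k j, j < k → O (k + 1) j = O k j := by
      intro k j hj
      exact hg1 k (O k) (hOmem k) j hj
    have hOagree' : ∀ j k, j < k → O k j = O (j + 1) j := by
      intro j k hk
      induction k with
      | zero => omega
      | succ k ih =>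
        rcases Nat.lt_or_ge j k with h | h
        · rw [hOagree k j h, ih h]
        · have : k = j := by omega
          rw [this]
    let o : ℕ → Bool × ℕ := fun j => O (j + 1) j
    have hmem : ∀ k, x ∈ chosen (P o) (2 * k) := by
      intro k
      have h1 : P o (2 * k) = P (O k) (2 * k) := by
        apply hcongr (k := k) _ _ (by omega)
        intro j hj
        exact (hOagree' j k hj).symm
      have := hOmem k
      unfold chosen at this ⊢
      rw [h1]; exact this
    have hall : x ∈ {x | ∀ n, 1 ≤ n → x ∈ chosen (P o) n} := by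
      intro n _
      exact chosen_antitone (hlegal o) (by omega : n ≤ 2 * n) (hmem n)
    rw [hwin (P o) (hlegal o) (hfol o)] at hall
    exact hall
  choose K O hK1 hK2 using hkill
  -- the key of a point
  let key : E → List (Bool × ℕ) × Bool := fun x =>
    ((List.range (K x)).map (O x), decide (x ∈ (P (O x) (2 * K x)).1))
  have hinj : Set.InjOn key T := by
    intro x hx y hy hxy
    by_contra hne
    have h1 : (List.range (K x)).map (O x) = (List.range (K y)).map (O y) :=
      congrArg Prod.fst hxy
    have h2 : decide (x ∈ (P (O x) (2 * K x)).1) = decide (y ∈ (P (O y) (2 * K y)).1) :=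
      congrArg Prod.snd hxy
    have hk : K x = K y := by simpa using congrArg List.length h1
    have hag : ∀ j < K x, O x j = O y j := by
      intro j hj
      have h3 := congrArg (fun l => l[j]?) h1
      have hj' : j < K y := hk ▸ hj
      simpa [hj, hj'] using h3
    have hPeq : P (O x) (2 * K x) = P (O y) (2 * K x) := hcongr hag _ (by omega)
    rw [← hk, ← hPeq] at h2
    -- the common side
    obtain ⟨b, hbx, hby⟩ : ∃ b : Bool, x ∈ side b (P (O x) (2 * K x)) ∧
        y ∈ side b (P (O x) (2 * K x)) := by
      have hx' : x ∈ (P (O x) (2 * K x)).1 ∨ x ∈ (P (O x) (2 * K x)).2 := hK1 x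
      have hy' : y ∈ (P (O x) (2 * K x)).1 ∨ y ∈ (P (O x) (2 * K x)).2 := by
        have := hK1 y
        unfold chosen at this
        rw [← hk, ← hPeq] at this
        exact this
      by_cases hxs : x ∈ (P (O x) (2 * K x)).1
      · refine ⟨true, hxs, ?_⟩
        rw [decide_eq_true hxs] at h2
        exact of_decide_eq_true h2.symm
      · refine ⟨false, hx'.resolve_left hxs, ?_⟩
        rw [decide_eq_false hxs] at h2
        exact hy'.resolve_left (of_decide_eq_false h2.symm)
    -- a digit separating the two points
    obtain ⟨n, hn⟩ : ∃ n, d x n ≠ d y n := by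
      by_contra hcon
      push Not at hcon
      exact hne (hd hx hy (funext hcon))
    let o' : ℕ → Bool × ℕ := Function.update (O x) (K x) (b, n)
    have ho' : ∀ j < K x, o' j = O x j := fun j hj => Function.update_of_ne (by omega) _ _
    have hPo' : P o' (2 * K x) = P (O x) (2 * K x) := hcongr ho' _ (by omega)
    have hcut : P o' (2 * K x + 1) = cut (side b (P (O x) (2 * K x))) (S n) := by
      rw [hodd, hPo']
      simp [o']
    have hnx : x ∉ chosen (P o') (2 * K x + 2) := hK2 x o' ho'
    have hny : y ∉ chosen (P o') (2 * K x + 2) := by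
      have := hK2 y o' (fun j hj => by rw [← hk] at hj; rw [ho' j hj, hag j hj])
      rw [← hk] at this
      exact this
    have hch := (hlegal o' (2 * K x + 2)).chosen_succ
    rw [hcut] at hch
    simp only [cut] at hch
    have hxS : x ∈ S n ↔ d x n = true := Iff.rfl
    have hyS : y ∈ S n ↔ d y n = true := Iff.rfl
    rcases hch with hch | hch <;> rw [hch] at hnx hny
    · -- the piece inside `S n`
      have h3 : ¬ d x n = true := fun h => hnx ⟨hbx, hxS.2 h⟩
      have h4 : ¬ d y n = true := fun h => hny ⟨hby, hyS.2 h⟩
      rw [Bool.not_eq_true] at h3 h4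
      exact hn (h3.trans h4.symm)
    · have h3 : d x n = true := by
        by_contra h
        exact hnx ⟨hbx, fun h' => h (hxS.1 h')⟩
      have h4 : d y n = true := by
        by_contra h
        exact hny ⟨hby, fun h' => h (hyS.1 h')⟩
      exact hn (h3.trans h4.symm)
  exact Set.countable_of_injective_of_countable_image hinj (Set.to_countable _)

/-- Every set of cardinality at most the continuum embeds into `ℕ → Bool`. -/
lemma exists_embedding_of_le_continuum {T : Type u} (h : #T ≤ 𝔠) : Nonempty (T ↪ (ℕ → Bool)) := by
  rw [← Cardinal.lift_mk_le']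
  simpa using h

theorem not_AWins (E : Type u) (hE : ¬ Countable E) : ¬ AWins E := by
  classical
  rintro ⟨s, hs, hwin⟩
  -- an uncountable subset of size at most the continuum
  have h0 : ℵ₀ < #E := by
    rw [← not_le, Cardinal.mk_le_aleph0_iff]; exact hE
  have h1 : ℵ₁ ≤ #E := by
    rw [← Cardinal.succ_aleph0]; exact Order.succ_le_of_lt h0
  obtain ⟨T, hT⟩ := le_mk_iff_exists_set.1 h1
  obtain ⟨f⟩ := exists_embedding_of_le_continuum (T := T) (by rw [hT]; exact aleph_one_le_continuum)
  let d : E → ℕ → Bool := fun x => if hx : x ∈ T then f ⟨x, hx⟩ else fun _ => false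
  have hd : Set.InjOn d T := by
    intro x hx y hy hxy
    simp only [d, dif_pos hx, dif_pos hy] at hxy
    exact congrArg Subtype.val (f.injective hxy)
  have hc := not_AWins_of_separating hs hwin d T hd
  rw [← Cardinal.le_aleph0_iff_set_countable, hT] at hc
  exact absurd hc (not_le.2 aleph0_lt_aleph_one)

end Pool.Agent.W_MP_c086f7_lc
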