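import Mathlib

open Cardinal Set

universe u v

namespace Pool.Agent.W_MP_c086f7_lc

/-- Injective choice: a family of at most `κ` sets, each of cardinality at least `κ`, `κ` infinite,
has an injective choice function. -/
lemma exists_injective_choice {ι Y : Type u} (R : ι → Set Y) (hR : ∀ i, #ι ≤ #(R i)) :
    ∃ f : ι → Y, Function.Injective f ∧ ∀ i, f i ∈ R i := by
  classical
  obtain ⟨r, hr, hord⟩ := exists_ord_eq ι
  have hwf : WellFounded r := hr.wf
  -- the recursion step
  have hstep : ∀ (i : ι) (g : ∀ j, r j i → Y), ∃ y ∈ R i, ∀ (j : ι) (h : r j i), g j h ≠ y := by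
    intro i g
    by_contra hcon
    push Not at hcon
    have hsub : R i ⊆ Set.range (fun j : {j // r j i} => g j.1 j.2) := by
      intro y hy
      obtain ⟨j, hj, h⟩ := hcon y hy
      exact ⟨⟨j, hj⟩, h⟩
    have h1 : #(R i) ≤ #{j // r j i} :=
      (Cardinal.mk_le_mk_of_subset hsub).trans Cardinal.mk_range_le
    have h2 : #{j // r j i} < #ι := card_typein_lt i hord
    exact absurd (hR i) (not_le.2 (h1.trans_lt h2))
  choose F hF1 hF2 using hstep
  let f : ι → Y := hwf.fix F
  have hf : ∀ i, f i = F i (fun j _ => f j) := fun i => hwf.fix_eq F i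
  refine ⟨f, ?_, fun i => by rw [hf]; exact hF1 _ _⟩
  intro i j hij
  rcases trichotomous_of r i j with h | h | h
  · exact absurd hij (by rw [hf j]; exact hF2 j (fun k _ => f k) i h)
  · exact h
  · exact absurd hij.symm (by rw [hf i]; exact hF2 i (fun k _ => f k) j h)

/-- The branch through `φ` determined by `z`. -/
def branch (φ : List Bool → Bool) (z : ℕ → Bool) : ℕ → Bool :=
  fun k => φ ((List.range k).map z)

/-- A set of size continuum which contains no perfect set (in coded form). -/
lemma exists_bernstein : ∃ C : Set (ℕ → Bool), #C = 𝔠 ∧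
    ∀ φ : List Bool → Bool, Function.Injective (branch φ) → ¬ Set.range (branch φ) ⊆ C := by
  classical
  let Φ := {φ : List Bool → Bool // Function.Injective (branch φ)}
  have hΦ : #Φ ≤ 𝔠 := by
    refine (Cardinal.mk_subtype_le _).trans ?_
    simp
  have hΦ2 : #(Φ ⊕ (ℕ → Bool)) ≤ 𝔠 := by
    rw [Cardinal.mk_sum]
    simp only [lift_id]
    refine Cardinal.add_le_of_le (Cardinal.aleph0_le_continuum) hΦ (by simp)
  let R : Φ ⊕ (ℕ → Bool) → Set (ℕ → Bool) := fun i =>
    match i with
    | Sum.inl φ => Set.range (branch φ.1)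
    | Sum.inr _ => Set.univ
  obtain ⟨f, hf, hfR⟩ := exists_injective_choice R (by
    intro i
    refine hΦ2.trans ?_
    rcases i with φ | z
    · have : #(Set.range (branch φ.1)) = #(ℕ → Bool) := Cardinal.mk_range_eq _ φ.2
      show 𝔠 ≤ #(Set.range (branch φ.1))
      rw [this]; simp
    · show 𝔠 ≤ #(Set.univ : Set (ℕ → Bool))
      rw [Cardinal.mk_univ]; simp)
  refine ⟨Set.range (fun z : ℕ → Bool => f (Sum.inr z)), ?_, ?_⟩
  · have := Cardinal.mk_range_eq (fun z : ℕ → Bool => f (Sum.inr z)) (hf.comp Sum.inr_injective)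
    rw [this]
    simp
  · intro φ hφ hsub
    have h1 : f (Sum.inl ⟨φ, hφ⟩) ∈ Set.range (branch φ) := hfR (Sum.inl ⟨φ, hφ⟩)
    obtain ⟨z, hz⟩ := hsub h1
    exact absurd (hf hz) (by simp)

end Pool.Agent.W_MP_c086f7_lc
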