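import Mathlib
import Pool.Agent.W_MP_c086f7_lc.Plays
import Pool.Agent.W_MP_c086f7_lc.Bernstein
import Pool.Agent.W_MP_c086f7_lc.NotA

open Cardinal

universe u

namespace Pool.Agent.W_MP_c086f7_lc

variable {E : Type u}

/-- A cuts by the sets `S 0, S 1, ...`, and picks according to `z`. -/
noncomputable def stepB (s : List (Set E × Set E) → Set E × Set E) (S : ℕ → Set E)
    (z : ℕ → Bool) (l : List (Set E × Set E)) : Set E × Set E :=
  open Classical in
  if l.length = 0 then cut Set.univ (S 0)
  else if Odd l.length then s l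
  else cut (side (z (l.length / 2 - 1)) (l.getD (l.length - 1) (∅, ∅))) (S (l.length / 2))

lemma playB_follows (s : List (Set E × Set E) → Set E × Set E) (S : ℕ → Set E)
    (z : ℕ → Bool) : Follows Odd s (play (stepB s S z)) := by
  intro n hn
  rw [play_eq]
  have : n ≠ 0 := by rintro rfl; simp at hn
  simp only [stepB, length_hist, if_pos hn, if_neg this]

lemma playB_zero (s : List (Set E × Set E) → Set E × Set E) (S : ℕ → Set E)
    (z : ℕ → Bool) : play (stepB s S z) 0 = cut Set.univ (S 0) := by
  rw [play_eq]
  simp [stepB]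

lemma playB_even (s : List (Set E × Set E) → Set E × Set E) (S : ℕ → Set E)
    (z : ℕ → Bool) (k : ℕ) :
    play (stepB s S z) (2 * k + 2) =
      cut (side (z k) (play (stepB s S z) (2 * k + 1))) (S (k + 1)) := by
  rw [play_eq]
  have h1 : ¬ Odd (2 * k + 2) := by
    rw [Nat.not_odd_iff_even]; exact ⟨k + 1, by ring⟩
  have h2 : (2 * k + 2) / 2 - 1 = k := by omega
  have h3 : (2 * k + 2) / 2 = k + 1 := by omega
  have h4 : 2 * k + 2 - 1 = 2 * k + 1 := by omega
  simp only [stepB, length_hist]
  rw [if_neg (by omega), if_neg h1, h2, h3, h4, getD_hist _ _ _ _ (by omega)]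

lemma playB_legal {s : List (Set E × Set E) → Set E × Set E} (hs : IsStrategy Odd s)
    (S : ℕ → Set E) (z : ℕ → Bool) : ∀ n, LegalAt (play (stepB s S z)) n := by
  apply legal_of_strategy hs (playB_follows s S z)
  intro n hn
  rw [Nat.not_odd_iff_even] at hn
  obtain ⟨k, hk⟩ := hn
  rcases k with _ | k
  · have : n = 0 := by omega
    subst this
    show IsSplit Set.univ _
    rw [playB_zero]; exact isSplit_cut _ _
  · have : n = 2 * k + 2 := by omega
    subst this
    exact legal_cut_side (playB_even s S z k)

lemma playB_congr (s : List (Set E × Set E) → Set E × Set E) (S : ℕ → Set E)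
    {z z' : ℕ → Bool} {k : ℕ} (h : ∀ j < k, z j = z' j) :
    ∀ n < 2 * k + 2, play (stepB s S z) n = play (stepB s S z') n := by
  apply play_congr
  intro l hl
  unfold stepB
  by_cases h0 : l.length = 0
  · simp only [if_pos h0]
  by_cases he : Odd l.length
  · simp only [if_pos he, if_neg h0]
  · have : l.length / 2 - 1 < k := by
      obtain ⟨j, hj⟩ := Nat.not_odd_iff_even.1 he
      omega
    simp only [if_neg he, if_neg h0, h _ this]

theorem not_BWins (E : Type u) (hE : #E ≤ 𝔠) : ¬ BWins E := by
  classical
  rintro ⟨s, hs, hwin⟩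
  obtain ⟨C, hC, hCφ⟩ := exists_bernstein
  -- an embedding of `E` into `C`
  obtain ⟨ι⟩ : Nonempty (E ↪ C) := by
    rw [← Cardinal.lift_mk_le', hC]
    simpa using hE
  set S : ℕ → Set E := fun n => {e | (ι e : ℕ → Bool) n = true} with hS
  set P : (ℕ → Bool) → ℕ → Set E × Set E := fun z => play (stepB s S z) with hP
  have hlegal : ∀ z n, LegalAt (P z) n := fun z => playB_legal hs S z
  have hfol : ∀ z, Follows Odd s (P z) := fun z => playB_follows s S z
  have hzero : ∀ z, P z 0 = cut Set.univ (S 0) := fun z => playB_zero s S z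
  have heven : ∀ z k, P z (2 * k + 2) = cut (side (z k) (P z (2 * k + 1))) (S (k + 1)) :=
    fun z k => playB_even s S z k
  have hcongr : ∀ {z z' : ℕ → Bool} {k : ℕ}, (∀ j < k, z j = z' j) →
      ∀ n < 2 * k + 2, P z n = P z' n := fun h => playB_congr s S h
  -- the surviving points
  have hsurv : ∀ z, ∃ x : E, ∀ n, 1 ≤ n → x ∈ chosen (P z) n := by
    intro z
    have := hwin (P z) (hlegal z) (hfol z)
    obtain ⟨x, hx⟩ := Set.nonempty_iff_ne_empty.2 this
    exact ⟨x, hx⟩
  choose X hX using hsurv
  -- the digits of the surviving point are read off from B's picks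
  have hdigit : ∀ z k, (ι (X z) : ℕ → Bool) k = decide (chosen (P z) (2 * k + 1) ⊆ S k) := by
    intro z k
    have hx := hX z (2 * k + 1) (by omega)
    -- the splitting at move `2k` is by `S k`
    obtain ⟨Y, hY⟩ : ∃ Y, P z (2 * k) = cut Y (S k) := by
      rcases k with _ | k
      · exact ⟨_, hzero z⟩
      · exact ⟨_, heven z k⟩
    have hch := (hlegal z (2 * k + 1)).chosen_succ
    rw [hY] at hch
    simp only [cut] at hch
    by_cases hd : (ι (X z) : ℕ → Bool) k = true
    · rw [hd, eq_comm, decide_eq_true_iff]
      rcases hch with hch | hch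
      · rw [hch]; exact Set.inter_subset_right
      · rw [hch] at hx
        exact absurd hd hx.2
    · rw [Bool.not_eq_true] at hd
      rw [hd, eq_comm, decide_eq_false_iff_not]
      intro hsub
      have : (ι (X z) : ℕ → Bool) k = true := hsub hx
      rw [hd] at this
      exact absurd this (by simp)
  -- different picks of A lead to different surviving points
  have hinj : Function.Injective X := by
    intro z z' hzz
    by_contra hne
    have hex : ∃ n, z n ≠ z' n := by
      by_contra hcon
      push Not at hcon
      exact hne (funext hcon)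
    set k := Nat.find hex with hk
    have hk1 : z k ≠ z' k := Nat.find_spec hex
    have hk2 : ∀ j < k, z j = z' j := fun j hj => by
      by_contra h
      exact Nat.find_min hex hj h
    have hPeq : P z (2 * k + 1) = P z' (2 * k + 1) := hcongr hk2 _ (by omega)
    have hx := hX z (2 * k + 2) (by omega)
    have hx' := hX z' (2 * k + 2) (by omega)
    have h1 : chosen (P z) (2 * k + 2) = side (z k) (P z (2 * k + 1)) := by
      unfold chosen
      rw [heven]; exact (isSplit_cut _ _).1
    have h2 : chosen (P z') (2 * k + 2) = side (z' k) (P z (2 * k + 1)) := by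
      unfold chosen
      rw [heven, hPeq]; exact (isSplit_cut _ _).1
    rw [h1] at hx
    rw [h2, ← hzz] at hx'
    have hdis := (hlegal z (2 * k + 1)).disjoint
    cases hb : z k <;> cases hb' : z' k
    · exact hk1 (hb.trans hb'.symm)
    · rw [hb] at hx; rw [hb'] at hx'
      exact Set.disjoint_left.1 hdis hx' hx
    · rw [hb] at hx; rw [hb'] at hx'
      exact Set.disjoint_left.1 hdis hx hx'
    · exact hk1 (hb.trans hb'.symm)
  -- the tree of B's picks
  let φ : List Bool → Bool := fun l =>
    decide (chosen (P (fun i => l.getD i false)) (2 * l.length + 1) ⊆ S l.length)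
  have hφ : ∀ z, branch φ z = (ι (X z) : ℕ → Bool) := by
    intro z
    ext k
    rw [hdigit z k]
    have hlen : ((List.range k).map z).length = k := by simp
    have hag : ∀ j < k, (fun i => ((List.range k).map z).getD i false) j = z j := by
      intro j hj
      simp only
      rw [List.getD_eq_getElem _ _ (by simpa using hj)]
      simp
    have hPe := hcongr hag (2 * k + 1) (by omega)
    simp only [branch, φ, hlen]
    unfold chosen
    rw [hPe]
  have hbinj : Function.Injective (branch φ) := by
    intro z z' h
    rw [hφ, hφ] at h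
    exact hinj (ι.injective (Subtype.ext h))
  apply hCφ φ hbinj
  rintro _ ⟨z, rfl⟩
  rw [hφ]
  exact (ι (X z)).2

end Pool.Agent.W_MP_c086f7_lc
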