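import Mathlib
import Pool.Agent.W_MP_c086f7_lc.Plays
import Pool.Agent.W_MP_c086f7_lc.NotA
import Pool.Agent.W_MP_c086f7_lc.NotB

open Cardinal

universe u

namespace Pool.Agent.W_MP_c086f7_lc

variable {E : Type u}

/-! ### From a system to a winning strategy for B -/

section FromSystem

variable {P : Type*}

/-- The condition kept by B: `r p c = (b, q0, q1)` is B's answer when it keeps `p` and A has
just made the pieces `c`. -/
noncomputable def kept (X : P → Set E) (r : P → Set E × Set E → Bool × P × P) (p : P)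
    (m : ℕ → Set E × Set E) : ℕ → P
  | 0 => p
  | k + 1 =>
    open Classical in
    if chosen m (2 * k + 2) ⊆ X (r (kept X r p m k) (m (2 * k))).2.1
      then (r (kept X r p m k) (m (2 * k))).2.1
      else (r (kept X r p m k) (m (2 * k))).2.2

lemma kept_congr (X : P → Set E) (r : P → Set E × Set E → Bool × P × P) (p : P)
    {m m' : ℕ → Set E × Set E} {k : ℕ} (h : ∀ i < 2 * k + 1, m i = m' i) :
    kept X r p m k = kept X r p m' k := by
  induction k with
  | zero => rfl
  | succ k ih =>
    have ih' := ih (fun i hi => h i (by omega))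
    have h1 : m (2 * k) = m' (2 * k) := h _ (by omega)
    have h2 : chosen m (2 * k + 2) = chosen m' (2 * k + 2) := by
      unfold chosen; rw [h _ (by omega)]
    unfold kept
    rw [ih', h1, h2]

/-- B's strategy. -/
noncomputable def stratB (X : P → Set E) (r : P → Set E × Set E → Bool × P × P) (p : P)
    (l : List (Set E × Set E)) : Set E × Set E :=
  let m : ℕ → Set E × Set E := fun i => l.getD i (∅, ∅)
  let k := l.length / 2
  let a := r (kept X r p m k) (m (2 * k))
  cut (side a.1 (m (2 * k))) (X a.2.1)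

lemma stratB_hist (X : P → Set E) (r : P → Set E × Set E → Bool × P × P) (p : P)
    (m : ℕ → Set E × Set E) (k : ℕ) :
    stratB X r p (hist m (2 * k + 1)) =
      cut (side (r (kept X r p m k) (m (2 * k))).1 (m (2 * k)))
        (X (r (kept X r p m k) (m (2 * k))).2.1) := by
  have hk : (2 * k + 1) / 2 = k := by omega
  have hag : ∀ i < 2 * k + 1, (fun i => (hist m (2 * k + 1)).getD i (∅, ∅)) i = m i :=
    fun i hi => getD_hist _ _ _ _ hi
  have h1 := kept_congr X r p hag
  have h2 := hag (2 * k) (by omega)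
  simp only at h2
  unfold stratB
  simp only [length_hist, hk]
  rw [h1, h2]

lemma stratB_isStrategy (X : P → Set E) (r : P → Set E × Set E → Bool × P × P) (p : P) :
    IsStrategy Odd (stratB X r p) := by
  intro m n hn _ hmn
  obtain ⟨k, rfl⟩ := hn
  rw [stratB_hist] at hmn
  exact legal_cut_side hmn

theorem BWins_of_system [Preorder P] [Nonempty P] (X : P → Set E) (hX : Monotone X)
    (hdec : ∀ (p : P) (Z : Set E), ∃ q ≤ p, X q ⊆ Z ∨ X q ⊆ Zᶜ)
    (hsplit : ∀ p : P, ∃ q ≤ p, ∃ r ≤ p, Disjoint (X q) (X r))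
    (hlim : ∀ s : ℕ → P, Antitone s → (⋂ n, X (s n)).Nonempty) : BWins E := by
  classical
  obtain ⟨p₀⟩ := ‹Nonempty P›
  have hne : ∀ p, (X p).Nonempty := fun p => by
    obtain ⟨x, hx⟩ := hlim (fun _ => p) (fun _ _ _ => le_rfl)
    exact ⟨x, Set.mem_iInter.1 hx 0⟩
  -- B's response function
  have hresp : ∀ (p : P) (c : Set E × Set E), ∃ a : Bool × P × P,
      a.2.1 ≤ p ∧ a.2.2 ≤ p ∧ Disjoint (X a.2.1) (X a.2.2) ∧
        (X p ⊆ c.1 ∪ c.2 → X a.2.1 ⊆ side a.1 c ∧ X a.2.2 ⊆ side a.1 c) := by
    intro p c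
    obtain ⟨q, hq, h⟩ := hdec p c.1
    obtain ⟨u, hu, v, hv, hdis⟩ := hsplit q
    rcases h with h | h
    · refine ⟨(true, u, v), hu.trans hq, hv.trans hq, hdis, fun _ => ?_⟩
      exact ⟨(hX hu).trans h, (hX hv).trans h⟩
    · refine ⟨(false, u, v), hu.trans hq, hv.trans hq, hdis, fun hsub => ?_⟩
      have hZp : X q ⊆ c.2 := by
        intro x hx
        exact (hsub (hX hq hx)).resolve_left (h hx)
      exact ⟨(hX hu).trans hZp, (hX hv).trans hZp⟩
  choose r hr using hresp
  refine ⟨stratB X r p₀, stratB_isStrategy X r p₀, ?_⟩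
  intro m hm hf
  set K := kept X r p₀ m with hK
  have hKs : ∀ k, K (k + 1) = if chosen m (2 * k + 2) ⊆ X (r (K k) (m (2 * k))).2.1
      then (r (K k) (m (2 * k))).2.1 else (r (K k) (m (2 * k))).2.2 := fun k => rfl
  -- the moves of B
  have hB : ∀ k, m (2 * k + 1) = cut (side (r (K k) (m (2 * k))).1 (m (2 * k)))
      (X (r (K k) (m (2 * k))).2.1) := by
    intro k
    rw [hf (2 * k + 1) ⟨k, rfl⟩, stratB_hist]
  have hkanti : ∀ k, K (k + 1) ≤ K k := by
    intro k
    obtain ⟨h3, h4, _⟩ := hr (K k) (m (2 * k))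
    rw [hKs]
    split_ifs
    · exact h3
    · exact h4
  have hksub : ∀ k, X (K k) ⊆ chosen m (2 * k) := by
    intro k
    induction k with
    | zero =>
      have h1 : IsSplit Set.univ (m 0) := hm 0
      show X (K 0) ⊆ chosen m 0
      rw [h1.chosen]; exact Set.subset_univ _
    | succ k ih =>
      obtain ⟨_, _, h5, h6⟩ := hr (K k) (m (2 * k))
      obtain ⟨h7, h8⟩ := h6 ih
      have hch := (hm (2 * k + 1 + 1)).chosen_succ
      rw [hB k] at hch
      simp only [cut] at hch
      have e : 2 * (k + 1) = 2 * k + 1 + 1 := by ring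
      rw [e, hKs]
      split_ifs with hc
      · -- A picked the part inside `X q0` (or something smaller)
        rcases hch with hch | hch
        · rw [hch]
          exact fun x hx => ⟨h7 hx, hx⟩
        · -- then the chosen set is empty, but it contains `X q1`
          exfalso
          obtain ⟨x, hx⟩ := hne (r (K k) (m (2 * k))).2.2
          have hx2 : x ∈ chosen m (2 * k + 1 + 1) := by
            rw [hch]
            exact ⟨h8 hx, fun hx' => Set.disjoint_left.1 h5 hx' hx⟩
          exact Set.disjoint_left.1 h5 (hc hx2) hx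
      · rcases hch with hch | hch
        · exact absurd (by
            show chosen m (2 * k + 1 + 1) ⊆ _
            rw [hch]; exact Set.inter_subset_right) hc
        · rw [hch]
          exact fun x hx => ⟨h8 hx, fun hx' => Set.disjoint_left.1 h5 hx' hx⟩
  obtain ⟨x, hx⟩ := hlim K (antitone_nat_of_succ_le hkanti)
  rw [← Set.nonempty_iff_ne_empty]
  refine ⟨x, fun n _ => ?_⟩
  exact chosen_antitone hm (by omega : n ≤ 2 * n) (hksub n (Set.mem_iInter.1 hx n))

end FromSystem

/-! ### From a winning strategy for B to a system -/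

/-- Positions: a legal play consistent with `s`, of which only the first `n` moves count. -/
structure Position (s : List (Set E × Set E) → Set E × Set E) where
  /-- the play -/
  m : ℕ → Set E × Set E
  /-- the number of moves that count -/
  n : ℕ
  legal : ∀ i, LegalAt m i
  follows : Follows Odd s m

instance (s : List (Set E × Set E) → Set E × Set E) : Preorder (Position s) where
  le q p := p.n ≤ q.n ∧ ∀ i < p.n, q.m i = p.m i
  le_refl p := ⟨le_rfl, fun _ _ => rfl⟩
  le_trans a b c hab hbc := ⟨hbc.1.trans hab.1, fun i hi => by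
    rw [hab.2 i (lt_of_lt_of_le hi hbc.1), hbc.2 i hi]⟩

lemma Position.le_def {s : List (Set E × Set E) → Set E × Set E} {p q : Position s} :
    q ≤ p ↔ p.n ≤ q.n ∧ ∀ i < p.n, q.m i = p.m i := Iff.rfl

/-- The current set of a position. -/
def Position.cur {s : List (Set E × Set E) → Set E × Set E} (p : Position s) : Set E :=
  {x | ∀ i < p.n, x ∈ chosen p.m i}

/-- Continue a play at a turn of A by the move `a`. -/
noncomputable def stepExt (s : List (Set E × Set E) → Set E × Set E)
    (m : ℕ → Set E × Set E) (n : ℕ) (a : Set E × Set E) (l : List (Set E × Set E)) :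
    Set E × Set E :=
  open Classical in
  if l.length < n then m l.length
  else if l.length = n then a
  else if Odd l.length then s l
  else cut (side true (l.getD (l.length - 1) (∅, ∅))) ∅

lemma exists_extension {s : List (Set E × Set E) → Set E × Set E} (hs : IsStrategy Odd s)
    (m : ℕ → Set E × Set E) (hm : ∀ i, LegalAt m i) (hf : Follows Odd s m) {n : ℕ}
    (hn : Even n) (a : Set E × Set E)
    (ha : ∀ m' : ℕ → Set E × Set E, (∀ i < n, m' i = m i) → m' n = a → LegalAt m' n) :
    ∃ m' : ℕ → Set E × Set E, (∀ i, LegalAt m' i) ∧ Follows Odd s m' ∧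
      (∀ i < n, m' i = m i) ∧ m' n = a := by
  set m' := play (stepExt s m n a) with hm'
  have h1 : ∀ i < n, m' i = m i := by
    intro i hi
    rw [hm', play_eq]
    simp [stepExt, hi]
  have h2 : m' n = a := by
    rw [hm', play_eq]
    simp [stepExt]
  have hf' : Follows Odd s m' := by
    intro i hi
    rcases lt_or_ge i n with h | h
    · rw [h1 i h, hf i hi]
      congr 1
      exact hist_congr (fun j hj => (h1 j (hj.trans h)).symm)
    · have hne : i ≠ n := by
        rintro rfl
        exact (Nat.not_odd_iff_even.2 hn) hi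
      rw [hm', play_eq]
      simp only [stepExt, length_hist]
      rw [if_neg (by omega), if_neg hne, if_pos hi]
  have hl : ∀ i, LegalAt m' i := by
    apply legal_of_strategy hs hf'
    intro i hi
    rcases lt_trichotomy i n with h | h | h
    · -- before `n`
      have := hm i
      cases i with
      | zero => show IsSplit _ _; rw [h1 0 h]; exact this
      | succ i =>
        show IsSplit (m' i).1 (m' (i + 1)) ∨ IsSplit (m' i).2 (m' (i + 1))
        rw [h1 _ h, h1 i (by omega)]; exact this
    · subst h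
      exact ha m' h1 h2
    · obtain ⟨j, rfl⟩ : ∃ j, i = j + 1 := ⟨i - 1, by omega⟩
      have h3 : m' (j + 1) = cut (side true (m' j)) ∅ := by
        rw [hm', play_eq]
        simp only [stepExt, length_hist]
        rw [if_neg (by omega), if_neg (by omega), if_neg hi, Nat.add_sub_cancel,
          getD_hist _ _ _ _ (Nat.lt_succ_self j)]
      exact legal_cut_side h3
  exact ⟨m', hl, hf', h1, h2⟩

/-- At a position after an even number of moves, A may pick a piece and cut it by `Z`. -/
lemma exists_cut {s : List (Set E × Set E) → Set E × Set E} (hs : IsStrategy Odd s)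
    (m : ℕ → Set E × Set E) (hm : ∀ i, LegalAt m i) (hf : Follows Odd s m) {n : ℕ}
    (hn : Even n) (b : Bool) (Z : Set E) :
    ∃ m' : ℕ → Set E × Set E, (∀ i, LegalAt m' i) ∧ Follows Odd s m' ∧
      (∀ i < n, m' i = m i) ∧
      ∃ Y : Set E, m' n = cut Y Z ∧ ∀ k, n = k + 1 → Y = side b (m k) := by
  rcases n with _ | k
  · obtain ⟨m', h1, h2, h3, h4⟩ := exists_extension hs m hm hf hn (cut Set.univ Z) (by
      intro m' _ h
      show IsSplit Set.univ (m' 0)
      rw [h]; exact isSplit_cut _ _)
    exact ⟨m', h1, h2, h3, Set.univ, h4, fun k hk => by omega⟩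
  · obtain ⟨m', h1, h2, h3, h4⟩ := exists_extension hs m hm hf hn (cut (side b (m k)) Z) (by
      intro m' h5 h
      apply legal_cut_side (b := b) (S := Z)
      rw [h, h5 k (Nat.lt_succ_self k)])
    exact ⟨m', h1, h2, h3, _, h4, fun j hj => by
      have : j = k := by omega
      rw [this]⟩

/-- The plays of a descending sequence of positions converge to a play. -/
lemma exists_limit {s : List (Set E × Set E) → Set E × Set E} (t : ℕ → Position s)
    (ht : Antitone t) : ∃ m : ℕ → Set E × Set E, (∀ i, LegalAt m i) ∧ Follows Odd s m ∧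
      ∀ k, ∀ i < (t k).n, (t k).m i = m i := by
  classical
  by_cases hb : ∀ N, ∃ k, N < (t k).n
  · -- unbounded lengths
    let m : ℕ → Set E × Set E := fun i => (t (Nat.find (hb i))).m i
    have hag : ∀ k, ∀ i < (t k).n, (t k).m i = m i := by
      intro k i hi
      have h1 : Nat.find (hb i) ≤ k := Nat.find_min' (hb i) hi
      exact (ht h1).2 i (Nat.find_spec (hb i))
    refine ⟨m, ?_, ?_, hag⟩
    · intro i
      obtain ⟨k, hk⟩ := hb i
      have hl := (t k).legal i
      cases i with
      | zero => show IsSplit _ _; rw [← hag k 0 hk]; exact hl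
      | succ i =>
        show IsSplit (m i).1 (m (i + 1)) ∨ IsSplit (m i).2 (m (i + 1))
        rw [← hag k _ hk, ← hag k i (by omega)]; exact hl
    · intro i hi
      obtain ⟨k, hk⟩ := hb i
      rw [← hag k i hk, (t k).follows i hi]
      congr 1
      exact hist_congr (fun j hj => hag k j (hj.trans hk))
  · -- bounded lengths
    push Not at hb
    obtain ⟨N, hN⟩ := hb
    obtain ⟨K, hK⟩ : ∃ K, ∀ k, (t k).n ≤ (t K).n := by
      have hfin : (Set.range fun k => (t k).n).Finite :=
        (Set.finite_Iic N).subset (by rintro _ ⟨k, rfl⟩; exact hN k)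
      obtain ⟨_, ⟨K, rfl⟩, hK⟩ := Set.exists_max_image _ id hfin ⟨_, 0, rfl⟩
      exact ⟨K, fun k => hK _ ⟨k, rfl⟩⟩
    refine ⟨(t K).m, (t K).legal, (t K).follows, ?_⟩
    intro k i hi
    rcases le_total k K with h | h
    · exact ((ht h).2 i hi).symm
    · exact (ht h).2 i (lt_of_lt_of_le hi (hK k))

theorem hasSystem_of_BWins (h : BWins E) : HasSystem E := by
  classical
  obtain ⟨s, hs, hwin⟩ := h
  refine ⟨Position s, inferInstance, ⟨⟨play (stepB s (fun _ => ∅) (fun _ => true)), 0,
    playB_legal hs _ _, playB_follows _ _ _⟩⟩, Position.cur, ?_, ?_, ?_, ?_⟩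
  · -- monotone
    intro q p hqp x hx i hi
    have h1 := hx i (lt_of_lt_of_le hi hqp.1)
    unfold chosen at h1 ⊢
    rw [hqp.2 i hi] at h1
    exact h1
  · -- deciding
    intro p Z
    obtain ⟨N, hN, hpN⟩ : ∃ N, Even N ∧ p.n ≤ N := ⟨2 * p.n, by simp, by omega⟩
    obtain ⟨m', h1, h2, h3, Y, h4, _⟩ := exists_cut hs p.m p.legal p.follows hN true Z
    refine ⟨⟨m', N + 2, h1, h2⟩, ⟨by show p.n ≤ N + 2; omega, fun i hi => h3 i (by omega)⟩, ?_⟩
    have hch := (h1 (N + 1)).chosen_succ
    rw [h4] at hch
    simp only [cut] at hch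
    have hsub : (⟨m', N + 2, h1, h2⟩ : Position s).cur ⊆ chosen m' (N + 1) :=
      fun x hx => hx (N + 1) (Nat.lt_succ_self _)
    rcases hch with hch | hch
    · left
      rw [hch] at hsub
      exact hsub.trans Set.inter_subset_right
    · right
      rw [hch] at hsub
      exact fun x hx => (hsub hx).2
  · -- splitting
    intro p
    have hN : Even (2 * p.n + 1 + 1) := ⟨p.n + 1, by ring⟩
    obtain ⟨m1, a1, a2, a3, Y1, a4, a5⟩ := exists_cut hs p.m p.legal p.follows hN true ∅
    obtain ⟨m2, b1, b2, b3, Y2, b4, b5⟩ := exists_cut hs p.m p.legal p.follows hN false ∅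
    refine ⟨⟨m1, 2 * p.n + 1 + 2, a1, a2⟩,
      ⟨by show p.n ≤ 2 * p.n + 1 + 2; omega, fun i hi => a3 i (by omega)⟩,
      ⟨m2, 2 * p.n + 1 + 2, b1, b2⟩,
      ⟨by show p.n ≤ 2 * p.n + 1 + 2; omega, fun i hi => b3 i (by omega)⟩, ?_⟩
    have hY1 := a5 _ rfl
    have hY2 := b5 _ rfl
    have hdis := (p.legal (2 * p.n + 1)).disjoint
    rw [Set.disjoint_left]
    intro x hx1 hx2
    have e1 : x ∈ chosen m1 (2 * p.n + 1 + 1) := hx1 _ (Nat.lt_succ_self _)
    have e2 : x ∈ chosen m2 (2 * p.n + 1 + 1) := hx2 _ (Nat.lt_succ_self _)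
    unfold chosen at e1 e2
    rw [a4, (isSplit_cut _ _).1, hY1] at e1
    rw [b4, (isSplit_cut _ _).1, hY2] at e2
    exact Set.disjoint_left.1 hdis e1 e2
  · -- limits
    intro t ht
    obtain ⟨m, h1, h2, h3⟩ := exists_limit t ht
    obtain ⟨x, hx⟩ := Set.nonempty_iff_ne_empty.2 (hwin m h1 h2)
    have hx' : ∀ n, 1 ≤ n → x ∈ chosen m n := hx
    refine ⟨x, Set.mem_iInter.2 fun k i hi => ?_⟩
    unfold chosen
    rw [h3 k i hi]
    exact chosen_antitone h1 (Nat.le_succ i) (hx' (i + 1) (by omega))

theorem BWins_iff_hasSystem : BWins E ↔ HasSystem E := by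
  refine ⟨hasSystem_of_BWins, ?_⟩
  rintro ⟨P, hP, hne, X, h1, h2, h3, h4⟩
  exact BWins_of_system X h1 h2 h3 h4

end Pool.Agent.W_MP_c086f7_lc
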