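import Mathlib
import Pool.Agent.W_MP_c086f7_lc.SysB

open Cardinal Ordinal

universe u

namespace Pool.Agent.W_MP_c086f7_lc

variable {E : Type u} {P : Type u} [Preorder P]

/-- The system axioms for `X : P → Set E`. -/
structure Sys (X : P → Set E) : Prop where
  mono : Monotone X
  dec : ∀ (p : P) (Z : Set E), ∃ q ≤ p, X q ⊆ Z ∨ X q ⊆ Zᶜ
  split : ∀ p : P, ∃ q ≤ p, ∃ r ≤ p, Disjoint (X q) (X r)
  lim : ∀ s : ℕ → P, Antitone s → (⋂ n, X (s n)).Nonempty

/-- Below `p` the sets `X q` with `X q ⊆ A` are dense. -/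
def Den (X : P → Set E) (p : P) (A : Set E) : Prop := ∀ q ≤ p, ∃ r ≤ q, X r ⊆ A

/-- `g` is nowhere constant below `p`. -/
def NC (X : P → Set E) (p : P) (g : E → Ordinal.{u}) : Prop :=
  ∀ q ≤ p, ∀ a, ¬ X q ⊆ {x | g x = a}

namespace Sys

variable {X : P → Set E} (S : Sys X)

include S

lemma ne (p : P) : (X p).Nonempty := by
  obtain ⟨x, hx⟩ := S.lim (fun _ => p) (fun _ _ _ => le_rfl)
  exact ⟨x, Set.mem_iInter.1 hx 0⟩

lemma den_of_not {p : P} {A : Set E} (h : ∀ q ≤ p, ¬ X q ⊆ Aᶜ) : Den X p A := by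
  intro q hq
  obtain ⟨r, hr, h' | h'⟩ := S.dec q A
  · exact ⟨r, hr, h'⟩
  · exact absurd h' (h r (hr.trans hq))

lemma den_inter {p : P} {A B : Set E} (hA : Den X p A) (hB : Den X p B) : Den X p (A ∩ B) := by
  intro q hq
  obtain ⟨r, hr, h1⟩ := hA q hq
  obtain ⟨t, ht, h2⟩ := hB r (hr.trans hq)
  exact ⟨t, ht.trans hr, Set.subset_inter ((S.mono ht).trans h1) h2⟩

lemma not_singleton (q : P) (x : E) : ¬ X q ⊆ {x} := by
  intro h
  obtain ⟨r, hr, t, ht, hd⟩ := S.split q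
  obtain ⟨y, hy⟩ := S.ne r
  obtain ⟨z, hz⟩ := S.ne t
  have h1 : y = x := h (S.mono hr hy)
  have h2 : z = x := h (S.mono ht hz)
  rw [h1] at hy; rw [h2] at hz
  exact Set.disjoint_left.1 hd hy hz

lemma nc_of_injective {g : E → Ordinal.{u}} (hg : Function.Injective g) (p : P) :
    NC X p g := by
  intro q _ a hsub
  obtain ⟨x, hx⟩ := S.ne q
  apply S.not_singleton q x
  intro y hy
  have h1 : g y = a := hsub hy
  have h2 : g x = a := hsub hx
  exact hg (h1.trans h2.symm)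

/-- A pair `(p, g)` with `g` nowhere constant below `p` and minimal with this property. -/
lemma exists_min [Nonempty P] : ∃ (p : P) (g : E → Ordinal.{u}), NC X p g ∧
    ∀ q ≤ p, ∀ h : E → Ordinal.{u}, X q ⊆ {x | h x < g x} →
      ∃ r ≤ q, ∃ a, X r ⊆ {x | h x = a} := by
  classical
  by_contra hcon
  push Not at hcon
  obtain ⟨p₀⟩ := ‹Nonempty P›
  let g₀ : E → Ordinal.{u} := fun x => typein (WellOrderingRel (α := E)) x
  have hg₀ : Function.Injective g₀ := typein_injective _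
  let T := {pg : P × (E → Ordinal.{u}) // NC X pg.1 pg.2}
  have hnext : ∀ t : T, ∃ t' : T, t'.1.1 ≤ t.1.1 ∧
      X t'.1.1 ⊆ {x | t'.1.2 x < t.1.2 x} := by
    rintro ⟨⟨p, g⟩, hg⟩
    obtain ⟨q, hq, h, hh, hnc⟩ := hcon p g hg
    exact ⟨⟨⟨q, h⟩, fun r hr a hsub => hnc r hr a hsub⟩, hq, hh⟩
  choose nx hnx1 hnx2 using hnext
  let t : ℕ → T := fun n => Nat.rec ⟨⟨p₀, g₀⟩, S.nc_of_injective hg₀ p₀⟩ (fun _ t => nx t) n
  have ht : ∀ n, t (n + 1) = nx (t n) := fun n => rfl
  have hanti : Antitone fun n => (t n).1.1 :=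
    antitone_nat_of_succ_le fun n => by rw [ht]; exact hnx1 (t n)
  obtain ⟨x, hx⟩ := S.lim _ hanti
  rw [Set.mem_iInter] at hx
  have hdesc : ∀ n, (t (n + 1)).1.2 x < (t n).1.2 x := by
    intro n
    have h1 := hx (n + 1)
    simp only [ht] at h1 ⊢
    exact hnx2 (t n) h1
  obtain ⟨_, ⟨n, rfl⟩, hn⟩ := WellFounded.has_min (wellFounded_lt (α := Ordinal.{u}))
    (Set.range fun n => (t n).1.2 x) ⟨_, 0, rfl⟩
  exact hn _ ⟨n + 1, rfl⟩ (hdesc n)

end Sys

/-- The data of the critical point: `g` represents `k`. -/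
structure Crit (X : P → Set E) (p : P) (g : E → Ordinal.{u}) (k : Ordinal.{u}) : Prop where
  nc : NC X p g
  lt : Den X p {x | g x < k}
  gt : ∀ a < k, Den X p {x | a < g x}
  const : ∀ q ≤ p, ∀ h : E → Ordinal.{u}, X q ⊆ {x | h x < g x} →
      ∃ r ≤ q, ∃ a, X r ⊆ {x | h x = a}

theorem Sys.exists_crit [Nonempty P] {X : P → Set E} (S : Sys X) :
    ∃ (p : P) (g : E → Ordinal.{u}) (k : Ordinal.{u}), Crit X p g k := by
  classical
  obtain ⟨p, g, hnc, hmin⟩ := S.exists_min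
  let K : P → Set Ordinal.{u} := fun q => {a | ∃ r ≤ q, X r ⊆ {x | a < g x}}
  have hKne : ∀ q, {a | a ∉ K q}.Nonempty := by
    intro q
    refine ⟨⨆ x, g x, ?_⟩
    rintro ⟨r, hr, hsub⟩
    obtain ⟨x, hx⟩ := S.ne r
    exact absurd (hsub hx) (not_lt.2 (Ordinal.le_iSup g x))
  let kap : P → Ordinal.{u} := fun q => sInf {a | a ∉ K q}
  have hkapnot : ∀ q, kap q ∉ K q := fun q => csInf_mem (hKne q)
  have hdown : ∀ q a b, a ≤ b → b ∈ K q → a ∈ K q := by
    rintro q a b hab ⟨r, hr, hsub⟩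
    exact ⟨r, hr, fun x hx => lt_of_le_of_lt hab (hsub hx)⟩
  have hmem : ∀ q a, a < kap q → a ∈ K q := by
    intro q a ha
    by_contra h
    exact absurd ha (not_lt.2 (csInf_le' h))
  have hmemlt : ∀ q a, a ∈ K q → a < kap q := by
    intro q a ha
    by_contra h
    exact hkapnot q (hdown q _ _ (not_lt.1 h) ha)
  have hKmono : ∀ q r, r ≤ q → K r ⊆ K q := by
    rintro q r hr a ⟨t, ht, hsub⟩
    exact ⟨t, ht.trans hr, hsub⟩
  have hkmono : ∀ q r, r ≤ q → kap r ≤ kap q := by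
    intro q r hr
    by_contra h
    exact hkapnot q (hKmono q r hr (hmem r _ (not_le.1 h)))
  -- a condition with minimal `kap`
  obtain ⟨_, ⟨p', hp', rfl⟩, hp'min⟩ := WellFounded.has_min (wellFounded_lt (α := Ordinal.{u}))
    (kap '' {q | q ≤ p}) ⟨_, p, le_rfl, rfl⟩
  have hp'le : p' ≤ p := hp'
  have heq : ∀ q ≤ p', kap q = kap p' := by
    intro q hq
    apply le_antisymm (hkmono _ _ hq)
    exact not_lt.1 (hp'min _ ⟨q, hq.trans hp'le, rfl⟩)
  refine ⟨p', g, kap p', ?_, ?_, ?_, ?_⟩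
  · exact fun q hq => hnc q (hq.trans hp'le)
  · -- `g x < k`
    apply S.den_of_not
    intro q hq hsub
    -- `g x = k` cannot be dense
    obtain ⟨r, hr, h' | h'⟩ := S.dec q {x | g x = kap p'}
    · exact hnc r (hr.trans (hq.trans hp'le)) _ h'
    · have h1 : X r ⊆ {x | kap p' < g x} := by
        intro x hx
        have h2 : ¬ g x < kap p' := hsub (S.mono hr hx)
        have h3 : ¬ g x = kap p' := h' hx
        exact lt_of_le_of_ne (not_lt.1 h2) (fun h => h3 h.symm)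
      exact hkapnot p' ⟨r, hr.trans hq, h1⟩
  · intro a ha q hq
    exact hmem q a (by rw [heq q hq]; exact ha)
  · exact fun q hq => hmin q (hq.trans hp'le)

namespace Crit

variable {X : P → Set E} {p : P} {g : E → Ordinal.{u}} {k : Ordinal.{u}}

/-- `g x` is a limit ordinal. -/
lemma limit (S : Sys X) (c : Crit X p g k) : Den X p {x | IsLimPt Set.univ (g x)} := by
  classical
  have hkpos : 0 < k := by
    obtain ⟨r, hr, h⟩ := c.lt p le_rfl
    obtain ⟨x, hx⟩ := S.ne r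
    exact lt_of_le_of_lt zero_le (h hx)
  apply S.den_of_not
  intro q hq hsub
  obtain ⟨r, hr, hr'⟩ := c.gt 0 hkpos q hq
  have hpred : ∀ x, x ∈ X r → ∃ b, b < g x ∧ g x ≤ Order.succ b := by
    intro x hx
    have h1 : ¬ IsLimPt Set.univ (g x) := hsub (S.mono hr hx)
    have h2 : g x ≠ 0 := (hr' hx).ne'
    unfold IsLimPt at h1
    push Not at h1
    obtain ⟨b, hb, hb'⟩ := h1 h2
    refine ⟨b, hb, ?_⟩
    by_contra hlt
    exact absurd (not_le.1 hlt) (not_lt.2 (hb' (Order.succ b) (Set.mem_univ _) (Order.lt_succ b)))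
  choose! h hh1 hh2 using hpred
  obtain ⟨t, ht, a, ha⟩ := c.const r (hr.trans hq) h (fun x hx => hh1 x hx)
  apply c.nc t (ht.trans (hr.trans hq)) (Order.succ a)
  intro x hx
  have h1 := hh1 x (S.mono ht hx)
  have h2 := hh2 x (S.mono ht hx)
  have h3 : h x = a := ha hx
  rw [h3] at h1 h2
  exact le_antisymm h2 (Order.succ_le_of_lt h1)

lemma exists_between (S : Sys X) (c : Crit X p g k) {a : Ordinal.{u}} (ha : a < k) :
    ∃ b, a < b ∧ b < k ∧ IsLimPt Set.univ b := by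
  obtain ⟨r, hr, h⟩ := S.den_inter (S.den_inter c.lt (c.gt a ha)) (c.limit S) p le_rfl
  obtain ⟨x, hx⟩ := S.ne r
  have := h hx
  exact ⟨g x, this.1.2, this.1.1, this.2⟩

lemma pos (S : Sys X) (c : Crit X p g k) : 0 < k := by
  obtain ⟨r, hr, h⟩ := c.lt p le_rfl
  obtain ⟨x, hx⟩ := S.ne r
  exact lt_of_le_of_lt zero_le (h hx)

/-- Functions into a small set are somewhere constant. -/
lemma somewhere_const (S : Sys X) (c : Crit X p g k) {T : Type u} (hT : (#T).ord < k)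
    (F : E → T) {q : P} (hq : q ≤ p) : ∃ r ≤ q, ∃ t, X r ⊆ {x | F x = t} := by
  classical
  obtain ⟨rel, hrel, hord⟩ := exists_ord_eq T
  obtain ⟨r, hr, h⟩ := c.gt _ hT q hq
  obtain ⟨r', hr', a, ha⟩ := c.const r (hr.trans hq) (fun x => typein rel (F x)) (by
    intro x hx
    have h1 : typein rel (F x) < (#T).ord := by
      rw [hord]; exact typein_lt_type rel (F x)
    exact h1.trans (h hx))
  obtain ⟨x, hx⟩ := S.ne r'
  refine ⟨r', hr'.trans hr, F x, ?_⟩
  intro y hy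
  have h1 : typein rel (F y) = a := ha hy
  have h2 : typein rel (F x) = a := ha hx
  exact typein_injective rel (h1.trans h2.symm)

lemma card_le (S : Sys X) (c : Crit X p g k) : k.card ≤ #E := by
  have : k ≤ (#E).ord := by
    by_contra h
    obtain ⟨r, _, t, ht⟩ := c.somewhere_const S (not_le.1 h) (fun x : E => x) (le_refl p)
    exact S.not_singleton r t ht
  calc k.card ≤ (#E).ord.card := Ordinal.card_le_card this
    _ = #E := card_ord _

lemma cof_ord (S : Sys X) (c : Crit X p g k) : k.cof.ord = k := by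
  classical
  apply le_antisymm (Ordinal.ord_cof_le k)
  by_contra h
  obtain ⟨s, hs, hs'⟩ := Order.exists_cof_eq k.ToType
  have hcof : #s = k.cof := by rw [hs', Ordinal.cof_toType]
  have hlt : (#s).ord < k := by rw [hcof]; exact not_le.1 h
  -- pick an element of `s` above `g x`
  have hne : s.Nonempty := by
    have : Nonempty k.ToType := nonempty_toType_iff.2 (c.pos S).ne'
    obtain ⟨y, hy, _⟩ := hs (Classical.arbitrary k.ToType)
    exact ⟨y, hy⟩
  have hF : ∀ x, ∃ y : s, g x < k → g x ≤ typein (α := k.ToType) (· < ·) y.1 := by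
    intro x
    by_cases hx : g x < k
    · have hx' : g x < type (α := k.ToType) (· < ·) := by rwa [type_toType]
      obtain ⟨y, hy, hy'⟩ := hs (enum (α := k.ToType) (· < ·) ⟨g x, hx'⟩)
      refine ⟨⟨y, hy⟩, fun _ => ?_⟩
      have := typein_le_typein (α := k.ToType) (· < ·)
        (a := enum (α := k.ToType) (· < ·) ⟨g x, hx'⟩) (b := y)
      rw [typein_enum] at this
      exact this.2 (not_lt.2 hy')
    · exact ⟨⟨hne.some, hne.some_mem⟩, fun h => absurd h hx⟩
  choose F hF using hF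
  obtain ⟨r, hr, hr'⟩ := c.lt p le_rfl
  obtain ⟨t, ht, y, hy⟩ := c.somewhere_const S hlt F hr
  have hyk : typein (α := k.ToType) (· < ·) y.1 < k := by
    have := typein_lt_type (α := k.ToType) (· < ·) y.1
    rwa [type_toType] at this
  obtain ⟨t', ht', h2⟩ := c.gt _ hyk t (ht.trans hr)
  obtain ⟨x, hx⟩ := S.ne t'
  have h3 : typein (α := k.ToType) (· < ·) y.1 < g x := h2 hx
  have h4 : F x = y := hy (S.mono ht' hx)
  have h5 := hF x (hr' (S.mono (ht'.trans ht) hx))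
  rw [h4] at h5
  exact absurd h3 (not_lt.2 h5)

end Crit

end Pool.Agent.W_MP_c086f7_lc
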