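import Mathlib
import Pool.Agent.W_MP_c086f7_lc.Crit

open Cardinal Ordinal

universe u

namespace Pool.Agent.W_MP_c086f7_lc

variable {E : Type u} {P : Type u} [Preorder P]

namespace Crit

variable {X : P → Set E} {p : P} {g : E → Ordinal.{u}} {k : Ordinal.{u}}

/-- The critical point is above the continuum. -/
lemma continuum_lt (S : Sys X) (c : Crit X p g k) : 𝔠 < k.card := by
  classical
  by_contra hcon
  -- an embedding of `k` into `ℕ → Bool`
  obtain ⟨d⟩ := exists_embedding_of_le_continuum (T := k.ToType) (by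
    rw [mk_toType]; exact not_lt.1 hcon)
  let dd : E → (ℕ → Bool) := fun x =>
    if hx : g x < k then
      d (enum (α := k.ToType) (· < ·) ⟨g x, by
        rw [Set.mem_Iio, type_toType]; exact hx⟩)
    else fun _ => false
  have hdd : ∀ x y, g x < k → g y < k → dd x = dd y → g x = g y := by
    intro x y hx hy h
    simp only [dd, dif_pos hx, dif_pos hy] at h
    have h1 := enum_inj.1 (d.injective h)
    exact congrArg Subtype.val h1
  obtain ⟨p₁, hp₁, hp₁lt⟩ := c.lt p le_rfl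
  let P' := {q : P // q ≤ p₁}
  let X' : P' → Set (ℕ → Bool) := fun q => dd '' X q.1
  have hmono : Monotone X' := fun q r h => Set.image_mono (S.mono h)
  by_cases hsplit : ∀ q : P', ∃ r ≤ q, ∃ t ≤ q, Disjoint (X' r) (X' t)
  · -- the image is a system, so B wins on `ℕ → Bool`
    have : Nonempty P' := ⟨⟨p₁, le_rfl⟩⟩
    have hB : BWins (ℕ → Bool) := by
      apply BWins_of_system X' hmono _ hsplit _
      · intro q Z
        obtain ⟨r, hr, h⟩ := S.dec q.1 (dd ⁻¹' Z)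
        refine ⟨⟨r, hr.trans q.2⟩, hr, ?_⟩
        rcases h with h | h
        · left
          rintro _ ⟨x, hx, rfl⟩
          exact h hx
        · right
          rintro _ ⟨x, hx, rfl⟩
          exact h hx
      · intro s hs
        obtain ⟨x, hx⟩ := S.lim (fun n => (s n).1) (fun a b hab => hs hab)
        exact ⟨dd x, Set.mem_iInter.2 fun n => ⟨x, Set.mem_iInter.1 hx n, rfl⟩⟩
    exact not_BWins (ℕ → Bool) (by simp) hB
  · push Not at hsplit
    obtain ⟨q, hq⟩ := hsplit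
    -- the digits are decided below `q`
    let e : ℕ → Bool := fun n => decide (∃ r ≤ q.1, X r ⊆ {x | dd x n = true})
    have hdig : ∀ n, Den X q.1 {x | dd x n = e n} := by
      intro n
      apply S.den_of_not
      intro r hr hsub
      have hsub' : ∀ x ∈ X r, dd x n ≠ e n := fun x hx => hsub hx
      by_cases he : ∃ r ≤ q.1, X r ⊆ {x | dd x n = true}
      · have hen : e n = true := decide_eq_true he
        obtain ⟨t, ht, ht'⟩ := he
        apply hq ⟨r, hr.trans q.2⟩ hr ⟨t, ht.trans q.2⟩ ht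
        rw [Set.disjoint_left]
        rintro _ ⟨x, hx, rfl⟩ ⟨y, hy, hxy⟩
        have h1 : dd y n = true := ht' hy
        exact hsub' x hx (by rw [hen, ← hxy, h1])
      · have hen : e n = false := decide_eq_false he
        apply he
        refine ⟨r, hr, fun x hx => ?_⟩
        have := hsub' x hx
        rw [hen] at this
        simpa using this
    -- avoid the point coded by `e`
    obtain ⟨r₀, hr₀, hav⟩ : ∃ r₀ ≤ q.1, ∀ x ∈ X r₀, dd x ≠ e := by
      by_cases hex : ∃ x₀ ∈ X q.1, dd x₀ = e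
      · obtain ⟨x₀, hx₀, hx₀e⟩ := hex
        obtain ⟨r, hr, h | h⟩ := S.dec q.1 {x | g x = g x₀}
        · exact absurd h (c.nc r (hr.trans (q.2.trans hp₁)) _)
        · refine ⟨r, hr, fun x hx hxe => h hx ?_⟩
          exact hdd x x₀ (hp₁lt (S.mono (hr.trans q.2) hx)) (hp₁lt (S.mono q.2 hx₀))
            (hxe.trans hx₀e.symm)
      · push Not at hex
        exact ⟨q.1, le_rfl, hex⟩
    -- follow the digits
    have hstep : ∀ (n : ℕ) (r : {r : P // r ≤ r₀}), ∃ t : {r : P // r ≤ r₀}, t ≤ r ∧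
        X t.1 ⊆ {x | dd x n = e n} := by
      intro n r
      obtain ⟨t, ht, h⟩ := hdig n r.1 (r.2.trans hr₀)
      exact ⟨⟨t, ht.trans r.2⟩, ht, h⟩
    choose nx hnx1 hnx2 using hstep
    let t : ℕ → {r : P // r ≤ r₀} := fun n => Nat.rec ⟨r₀, le_rfl⟩ (fun n r => nx n r) n
    have ht : ∀ n, t (n + 1) = nx n (t n) := fun n => rfl
    have hanti : Antitone fun n => (t n).1 :=
      antitone_nat_of_succ_le fun n => by rw [ht]; exact hnx1 n (t n)
    obtain ⟨x, hx⟩ := S.lim _ hanti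
    rw [Set.mem_iInter] at hx
    apply hav x (S.mono (t 0).2 (hx 0))
    funext n
    have h1 := hx (n + 1)
    simp only [ht] at h1
    exact hnx2 n (t n) h1

lemma isRegular (S : Sys X) (c : Crit X p g k) : k.card.IsRegular ∧ k.card.ord = k := by
  have h1 : k.cof.ord = k := c.cof_ord S
  have h2 : k.card = k.cof := by
    conv_lhs => rw [← h1]
    exact card_ord _
  have h3 : ℵ₀ ≤ k.card := (Cardinal.aleph0_le_continuum).trans (c.continuum_lt S).le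
  refine ⟨⟨h3, ?_⟩, by rw [h2, h1]⟩
  rw [h2, h1]

section Thread

variable {C : Ordinal.{u} → Set Ordinal.{u}}

lemma step (S : Sys X) (c : Crit X p g k)
    (hclub : ∀ a < k, IsLimPt Set.univ a → IsClubIn (C a) a)
    {q : P} (hq : q ≤ p) {a : Ordinal.{u}} (ha : a < k) :
    ∃ r ≤ q, ∃ b, a < b ∧ b < k ∧
      X r ⊆ {x | b ∈ C (g x) ∧ b < g x ∧ g x < k ∧ IsLimPt Set.univ (g x)} := by
  classical
  obtain ⟨r, hr, h⟩ := S.den_inter (S.den_inter c.lt (c.gt a ha)) (c.limit S) q hq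
  have hex : ∀ x, x ∈ X r → ∃ b ∈ C (g x), a < b ∧ b < g x := by
    intro x hx
    obtain ⟨⟨h1, h2⟩, h3⟩ := h hx
    exact (hclub (g x) h1 h3).2.1.2 a h2
  choose! f hf1 hf2 hf3 using hex
  obtain ⟨t, ht, b, hb⟩ := c.const r (hr.trans hq) f (fun x hx => hf3 x hx)
  have hall : ∀ x ∈ X t, a < b ∧ b < k ∧
      (b ∈ C (g x) ∧ b < g x ∧ g x < k ∧ IsLimPt Set.univ (g x)) := by
    intro x hx
    have hx' := S.mono ht hx
    have e : f x = b := hb hx
    obtain ⟨⟨h1, h2⟩, h3⟩ := h hx'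
    have f1 := hf1 x hx'
    have f2 := hf2 x hx'
    have f3 := hf3 x hx'
    rw [e] at f1 f2 f3
    have h1' : g x < k := h1
    exact ⟨f2, f3.trans h1', f1, f3, h1', h3⟩
  obtain ⟨x, hx⟩ := S.ne t
  exact ⟨t, ht.trans hr, b, (hall x hx).1, (hall x hx).2.1, fun y hy => (hall y hy).2.2⟩

/-- Whether `b ∈ C (g x)` is decided below `p`. -/
lemma decided (S : Sys X) (c : Crit X p g k)
    (hclub : ∀ a < k, IsLimPt Set.univ a → IsClubIn (C a) a)
    (hcoh : ∀ a < k, IsLimPt Set.univ a → ∀ b < a, IsLimPt (C a) b →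
      C b = C a ∩ Set.Iio b)
    {b : Ordinal.{u}} (hb : b < k) {q₀ q₁ : P} (hq₀ : q₀ ≤ p) (hq₁ : q₁ ≤ p)
    (h₀ : X q₀ ⊆ {x | b ∈ C (g x)}) (h₁ : X q₁ ⊆ {x | b ∉ C (g x)}) : False := by
  classical
  -- states: two conditions and an ordinal below `k`
  let St := {s : P × P × Ordinal.{u} // s.1 ≤ q₀ ∧ s.2.1 ≤ q₁ ∧ s.2.2 < k}
  have hstep : ∀ s : St, ∃ s' : St, ∃ e : Ordinal.{u}, s'.1.1 ≤ s.1.1 ∧ s'.1.2.1 ≤ s.1.2.1 ∧
      s.1.2.2 < e ∧ e < s'.1.2.2 ∧
      X s'.1.1 ⊆ {x | e ∈ C (g x) ∧ e < g x ∧ g x < k ∧ IsLimPt Set.univ (g x)} ∧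
      X s'.1.2.1 ⊆ {x | s'.1.2.2 ∈ C (g x) ∧ s'.1.2.2 < g x ∧ g x < k ∧
        IsLimPt Set.univ (g x)} := by
    rintro ⟨⟨r₀, r₁, a⟩, hr₀, hr₁, ha⟩
    obtain ⟨t₀, ht₀, e, hae, hek, he⟩ := c.step S hclub (hr₀.trans hq₀) ha
    obtain ⟨t₁, ht₁, e', hee', hek', he'⟩ := c.step S hclub (hr₁.trans hq₁) hek
    exact ⟨⟨⟨t₀, t₁, e'⟩, ht₀.trans hr₀, ht₁.trans hr₁, hek'⟩, e, ht₀, ht₁, hae, hee', he, he'⟩
  choose nx e n1 n2 n3 n4 n5 n6 using hstep
  let s : ℕ → St := fun n => Nat.rec ⟨⟨q₀, q₁, b⟩, le_rfl, le_rfl, hb⟩ (fun _ s => nx s) n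
  have hs : ∀ n, s (n + 1) = nx (s n) := fun n => rfl
  let A : ℕ → Ordinal.{u} := fun n => (s n).1.2.2
  have hA0 : A 0 = b := rfl
  have hAe : ∀ n, A n < e (s n) := fun n => n3 (s n)
  have heA : ∀ n, e (s n) < A (n + 1) := fun n => n4 (s n)
  have hAA : ∀ n, A n < A (n + 1) := fun n => (hAe n).trans (heA n)
  obtain ⟨x₀, hx₀⟩ := S.lim (fun n => (s n).1.1) (antitone_nat_of_succ_le fun n => n1 (s n))
  obtain ⟨x₁, hx₁⟩ := S.lim (fun n => (s n).1.2.1) (antitone_nat_of_succ_le fun n => n2 (s n))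
  rw [Set.mem_iInter] at hx₀ hx₁
  have m0 : ∀ n, e (s n) ∈ C (g x₀) ∧ e (s n) < g x₀ ∧ g x₀ < k ∧
      IsLimPt Set.univ (g x₀) := fun n => n5 (s n) (hx₀ (n + 1))
  have m1 : ∀ n, A (n + 1) ∈ C (g x₁) ∧ A (n + 1) < g x₁ ∧ g x₁ < k ∧
      IsLimPt Set.univ (g x₁) := fun n => n6 (s n) (hx₁ (n + 1))
  set δ : Ordinal.{u} := ⨆ n, A n with hδ
  have hAδ : ∀ n, A n < δ := fun n => (hAA n).trans_le (Ordinal.le_iSup A (n + 1))
  have hltδ : ∀ a < δ, ∃ n, a < A n := fun a ha => (Ordinal.lt_iSup_iff).1 ha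
  have hδ0 : δ ≤ g x₀ := Ordinal.iSup_le fun n => ((hAe n).trans (m0 n).2.1).le
  have hδ1 : δ ≤ g x₁ := Ordinal.iSup_le fun n => by
    exact ((hAA n).trans (m1 n).2.1).le
  have hδne : δ ≠ 0 := by
    intro h
    have := hAδ 0
    rw [h] at this
    exact absurd this not_lt_zero
  have l0 : IsLimPt (C (g x₀)) δ := by
    refine ⟨hδne, fun a ha => ?_⟩
    obtain ⟨n, hn⟩ := hltδ a ha
    exact ⟨e (s n), (m0 n).1, hn.trans (hAe n), (heA n).trans (hAδ (n + 1))⟩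
  have l1 : IsLimPt (C (g x₁)) δ := by
    refine ⟨hδne, fun a ha => ?_⟩
    obtain ⟨n, hn⟩ := hltδ a ha
    exact ⟨A (n + 1), (m1 n).1, hn.trans (hAA n), hAδ (n + 1)⟩
  -- both clubs restrict to `C δ`
  have key : ∀ x, δ ≤ g x → g x < k → IsLimPt Set.univ (g x) → IsLimPt (C (g x)) δ →
      ∀ c' < δ, (c' ∈ C (g x) ↔ c' ∈ C δ) := by
    intro x h1 h2 h3 h4 c' hc'
    rcases h1.eq_or_lt with h | h
    · rw [h]
    · rw [hcoh (g x) h2 h3 δ h h4]
      exact ⟨fun h => ⟨h, hc'⟩, fun h => h.1⟩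
  have hbδ : b < δ := hAδ 0
  have k0 := key x₀ hδ0 (m0 0).2.2.1 (m0 0).2.2.2 l0 b hbδ
  have k1 := key x₁ hδ1 (m1 0).2.2.1 (m1 0).2.2.2 l1 b hbδ
  have hb0 : b ∈ C (g x₀) := h₀ (hx₀ 0)
  have hb1 : b ∉ C (g x₁) := h₁ (hx₁ 0)
  exact hb1 (k1.2 (k0.1 hb0))

theorem thread (S : Sys X) (c : Crit X p g k)
    (hclub : ∀ a < k, IsLimPt Set.univ a → IsClubIn (C a) a)
    (hcoh : ∀ a < k, IsLimPt Set.univ a → ∀ b < a, IsLimPt (C a) b →
      C b = C a ∩ Set.Iio b) :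
    ∃ t : Set Ordinal.{u}, IsClubIn t k ∧
      ∀ b < k, IsLimPt t b → C b = t ∩ Set.Iio b := by
  classical
  let t : Set Ordinal.{u} := {b | b < k ∧ ∃ q ≤ p, X q ⊆ {x | b ∈ C (g x)}}
  have ht : ∀ b, b ∈ t ↔ b < k ∧ ∃ q ≤ p, X q ⊆ {x | b ∈ C (g x)} := fun b => Iff.rfl
  -- the trace of `C (g x)` below `a < k` is the trace of `t`
  have hkey : ∀ a < k, ∃ η, a < η ∧ η < k ∧ IsLimPt Set.univ η ∧
      ∀ b < a, (b ∈ C η ↔ b ∈ t) := by
    intro a ha
    obtain ⟨q, hq, h⟩ := S.den_inter (S.den_inter c.lt (c.gt a ha)) (c.limit S) p le_rfl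
    obtain ⟨r, hr, h' | h'⟩ := S.dec q {x | ∀ b < a, (b ∈ C (g x) ↔ b ∈ t)}
    · obtain ⟨x, hx⟩ := S.ne r
      obtain ⟨⟨h1, h2⟩, h3⟩ := h (S.mono hr hx)
      exact ⟨g x, h2, h1, h3, h' hx⟩
    · exfalso
      have hex : ∀ x, x ∈ X r → ∃ b < a, ¬ (b ∈ C (g x) ↔ b ∈ t) := by
        intro x hx
        have : ¬ ∀ b < a, (b ∈ C (g x) ↔ b ∈ t) := h' hx
        push Not at this
        obtain ⟨b, hb, hb'⟩ := this
        refine ⟨b, hb, ?_⟩
        intro hiff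
        rcases hb' with h1 | h1
        · exact h1.2 (hiff.1 h1.1)
        · exact h1.1 (hiff.2 h1.2)
      choose! f hf1 hf2 using hex
      obtain ⟨r', hr', b, hb⟩ := c.const r (hr.trans hq) f (fun x hx => by
        obtain ⟨⟨_, h2⟩, _⟩ := h (S.mono hr hx)
        exact (hf1 x hx).trans h2)
      have hr'p : r' ≤ p := hr'.trans (hr.trans hq)
      have hba : b < a := by
        obtain ⟨x, hx⟩ := S.ne r'
        have h1 := hf1 x (S.mono hr' hx)
        have h2 : f x = b := hb hx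
        rwa [h2] at h1
      have hnot : ∀ x ∈ X r', ¬ (b ∈ C (g x) ↔ b ∈ t) := by
        intro x hx
        have h1 := hf2 x (S.mono hr' hx)
        have h2 : f x = b := hb hx
        rwa [h2] at h1
      by_cases hbt : b ∈ t
      · obtain ⟨_, q₀, hq₀, hq₀'⟩ := (ht b).1 hbt
        exact c.decided S hclub hcoh (hba.trans ha) hq₀ hr'p hq₀' (fun x hx hmem =>
          hnot x hx ⟨fun _ => hbt, fun _ => hmem⟩)
      · apply hbt
        rw [ht]
        refine ⟨hba.trans ha, r', hr'p, fun x hx => ?_⟩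
        by_contra hmem
        exact hnot x hx ⟨fun h => absurd h hmem, fun h => absurd h hbt⟩
  -- successors stay below `k`
  have hsucc : ∀ a < k, Order.succ a < k := by
    intro a ha
    obtain ⟨b, hb, hbk, _⟩ := c.exists_between S ha
    exact lt_of_le_of_lt (Order.succ_le_of_lt hb) hbk
  have hlim : ∀ b < k, IsLimPt t b → b ∈ t ∧ C b = t ∩ Set.Iio b := by
    intro b hb hlb
    obtain ⟨η, h1, h2, h3, h4⟩ := hkey (Order.succ b) (hsucc b hb)
    have hbη : b < η := (Order.lt_succ b).trans h1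
    have hlη : IsLimPt (C η) b := by
      refine ⟨hlb.1, fun a ha => ?_⟩
      obtain ⟨c', hc', hac, hcb⟩ := hlb.2 a ha
      exact ⟨c', (h4 c' (hcb.trans (Order.lt_succ b))).2 hc', hac, hcb⟩
    have hbC : b ∈ C η := (hclub η h2 h3).2.2 b hbη hlη
    refine ⟨(h4 b (Order.lt_succ b)).1 hbC, ?_⟩
    rw [hcoh η h2 h3 b hbη hlη]
    ext c'
    constructor
    · rintro ⟨h5, h6⟩
      exact ⟨(h4 c' (lt_trans h6 (Order.lt_succ b))).1 h5, h6⟩
    · rintro ⟨h5, h6⟩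
      exact ⟨(h4 c' (lt_trans h6 (Order.lt_succ b))).2 h5, h6⟩
  refine ⟨t, ⟨fun b hb => ((ht b).1 hb).1, ⟨(c.pos S).ne', ?_⟩, fun b hb h => (hlim b hb h).1⟩,
    fun b hb h => (hlim b hb h).2⟩
  intro a ha
  obtain ⟨r, hr, b, hab, hbk, hsub⟩ := c.step S hclub (le_refl p) ha
  exact ⟨b, (ht b).2 ⟨hbk, r, hr, fun x hx => (hsub hx).1⟩, hab, hbk⟩

end Thread

end Crit

theorem square_fails_of_BWins {E : Type u} (h : BWins E) :
    ∃ κ : Cardinal.{u}, κ.IsRegular ∧ 𝔠 < κ ∧ κ ≤ #E ∧ SquareFails κ := by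
  obtain ⟨P, hP, hne, X, h1, h2, h3, h4⟩ := hasSystem_of_BWins h
  have S : Sys X := ⟨h1, h2, h3, h4⟩
  obtain ⟨p, g, k, c⟩ := S.exists_crit
  obtain ⟨hreg, hord⟩ := c.isRegular S
  refine ⟨k.card, hreg, c.continuum_lt S, c.card_le S, ?_⟩
  intro C hclub hcoh
  rw [hord] at hclub hcoh ⊢
  exact c.thread S hclub hcoh

end Pool.Agent.W_MP_c086f7_lc
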